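import Pool.Agent.Work.MP_4b551e_an.Bd.B09
import Pool.Agent.Work.MP_4b551e_an.Bd.B13
import Pool.Agent.Work.MP_4b551e_an.Bd.B10
import Pool.Agent.Work.MP_4b551e_an.Bd.B11
import Pool.Agent.Work.MP_4b551e_an.Bd.B12
import Pool.Agent.Work.MP_4b551e_an.NN.Y3

/-!
# MP_4b551e_an: the main theorem, all parts put together (helper35)
-/

namespace Pool.Agent.Robin

theorem u_N6 : S_N6 := prn_N6 (prn_N4 fin_Q2 fin_Q3) (prn_N5 t_Eil) t_B1 t_B2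
theorem u_BL : S_BL := prn_BL prn_N1 (prn_N2 t_B2 t_B1 t_B3) prn_N3 u_N6 t_B3
theorem u_W : S_W := prn_W
theorem u_R2 : S_R2 := prn_R2 pr_P1
theorem u_R4 : S_R4 := prn_R4 pr_P1
theorem u_R5 : S_R5 := prn_R5 fin_P6 u_R2
theorem u_R6 : S_R6 := prn_R6 u_R2
theorem u_R8 : S_R8 := prn_R8 u_R2 prn_R7
theorem u_R9 : S_R9 := prn_R9 pr_CL pr_K2 fin_K4 fin_K7 u_R2 prn_R7 u_R8
theorem u_L1 : S_L1 := prn_L1 t_B1 t_Trans pr_K2 fin_K3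
theorem u_L2 : S_L2 := prn_L2 t_B1 t_B2 t_Crofton t_C10b pr_CL pr_K2 fin_K7 u_L1
theorem u_L3 : S_L3 := prn_L3 t_C9 t_C3 t_BM t_C10c t_C10a
theorem u_L6 : S_L6 :=
  prn_L6 u_L2 u_L3 prn_L4 prn_L5 prn_R3 u_R9 pr_K2 fin_K3 fin_K4 fin_K13
theorem u_X1 : S_X1 := prn_X1 u_W u_R2 prn_R3 u_R4 pr_P1
theorem u_X2 : S_X2 := prn_X2 u_X1 u_L2 prn_L4 u_L6 u_R2 prn_R3 u_R5
theorem u_X3 : S_X3 := prn_X3 u_X1 u_X2 prn_R1 u_R6 u_R8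
theorem u_Y3 : S_Y3 := prn_Y3 pr_K0 pr_K2 fin_K4 (prn_Y2 prn_Y1)
theorem u_N : S_N := prn_NN pr_CL t_B3 t_B3a u_BL u_X3 u_Y3

theorem core : S_Core :=
  prf_Z2 t_H3 t_M2 t_E2 t_B3e t_B3a fin_K5 fin_K14 prf_O u_N

theorem mainScaled : MainScaled := t_Z3 core

/-- Q1 of MP_4b551e_an. -/
theorem mainTheorem : MainTheorem := t_A6 mainScaled

end Pool.Agent.Robin
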